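import Pool.Agent.helper93.RG.Spec

/-! # Row rg:AFF (helper33) -/

set_option autoImplicit false

namespace Pool.Agent.RG

open Finset

section
variable {q : ℕ}

/-- the affine map z ↦ u z + c -/
def AFF_p (u : (ZMod q)ˣ) (c : ZMod q) : Equiv.Perm (ZMod q) where
  toFun z := u * z + c
  invFun z := ((u⁻¹ : (ZMod q)ˣ) : ZMod q) * (z - c)
  left_inv z := by
    show ((u⁻¹ : (ZMod q)ˣ) : ZMod q) * (u * z + c - c) = z
    rw [add_sub_cancel_right, ← mul_assoc, Units.inv_mul, one_mul]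
  right_inv z := by
    show (u : ZMod q) * (((u⁻¹ : (ZMod q)ˣ) : ZMod q) * (z - c)) + c = z
    rw [← mul_assoc, Units.mul_inv, one_mul, sub_add_cancel]

theorem AFF_p_apply (u : (ZMod q)ˣ) (c z : ZMod q) : AFF_p u c z = u * z + c := rfl

theorem AFF_p_mul (u v : (ZMod q)ˣ) (c c' : ZMod q) : AFF_p u c * AFF_p v c' = AFF_p (u * v) (u * c' + c) := by
  ext z
  rw [Equiv.Perm.mul_apply, AFF_p_apply, AFF_p_apply, AFF_p_apply, Units.val_mul]
  ring

theorem AFF_p_inv (u : (ZMod q)ˣ) (c : ZMod q) : (AFF_p u c)⁻¹ = AFF_p u⁻¹ (-(((u⁻¹ : (ZMod q)ˣ) : ZMod q) * c)) := by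
  rw [inv_eq_iff_mul_eq_one, AFF_p_mul, mul_inv_cancel]
  ext z
  rw [AFF_p_apply, mul_neg, ← mul_assoc, Units.mul_inv, Units.val_one, Equiv.Perm.one_apply]
  ring

/-- the homomorphism -/
def AFF_rho (t : Fin 2 → (ZMod q)ˣ) (j : Fin 2) : FreeGroup (Fin 2) →* Equiv.Perm (ZMod q) :=
  FreeGroup.lift fun i => AFF_p (t i) (if i = j then 1 else 0)

theorem AFF_mk_true (i : Fin 2) (L : List (Fin 2 × Bool)) :
    FreeGroup.mk ((i, true) :: L) = FreeGroup.of i * FreeGroup.mk L := by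
  unfold FreeGroup.of
  rw [FreeGroup.mul_mk]
  rfl

theorem AFF_mk_false (i : Fin 2) (L : List (Fin 2 × Bool)) :
    FreeGroup.mk ((i, false) :: L) = (FreeGroup.of i)⁻¹ * FreeGroup.mk L := by
  unfold FreeGroup.of
  rw [FreeGroup.inv_mk, FreeGroup.mul_mk]
  rfl

theorem AFF_ev_add (s t : (ZMod q)ˣ) (f g : (ℤ × ℤ) →₀ ℤ) : ev s t (f + g) = ev s t f + ev s t g := by
  unfold ev
  rw [Finsupp.sum_add_index']
  · intro a; simp
  · intro a b c; push_cast; ring

theorem AFF_ev_map (s t : (ZMod q)ˣ) (u : ℤ × ℤ) (f : (ℤ × ℤ) →₀ ℤ) :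
    ev s t (f.mapDomain fun v => u + v) = ((s ^ u.1 * t ^ u.2 : (ZMod q)ˣ) : ZMod q) * ev s t f := by
  unfold ev
  rw [Finsupp.sum_mapDomain_index]
  · rw [Finsupp.mul_sum]
    refine Finsupp.sum_congr fun v _ => ?_
    show _ * ((s ^ (u.1 + v.1) * t ^ (u.2 + v.2) : (ZMod q)ˣ) : ZMod q) = _
    rw [zpow_add, zpow_add]
    push_cast
    ring
  · intro a; simp
  · intro a b c; push_cast; ring

theorem AFF_ev_single (s t : (ZMod q)ˣ) (u : ℤ × ℤ) (c : ℤ) :
    ev s t (Finsupp.single u c) = c * ((s ^ u.1 * t ^ u.2 : (ZMod q)ˣ) : ZMod q) := by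
  unfold ev
  rw [Finsupp.sum_single_index (by simp)]

theorem AFF_ev_zero (s t : (ZMod q)ˣ) : ev s t (0 : (ℤ × ℤ) →₀ ℤ) = (0 : ZMod q) := by
  unfold ev
  exact Finsupp.sum_zero_index

theorem AFF_te (t : Fin 2 → (ZMod q)ˣ) (i : Fin 2) : t 0 ^ (e i).1 * t 1 ^ (e i).2 = t i := by
  fin_cases i <;> simp [e]

theorem AFF_ten (t : Fin 2 → (ZMod q)ˣ) (i : Fin 2) : t 0 ^ (-e i).1 * t 1 ^ (-e i).2 = (t i)⁻¹ := by
  fin_cases i <;> simp [e]

theorem AFF_main (t : Fin 2 → (ZMod q)ˣ) (j : Fin 2) (L : List (Fin 2 × Bool)) :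
    ∃ u : (ZMod q)ˣ, AFF_rho t j (FreeGroup.mk L) = AFF_p u (ev (t 0) (t 1) (fox L j)) := by
  induction L with
  | nil =>
    refine ⟨1, ?_⟩
    rw [← FreeGroup.one_eq_mk, map_one]
    ext z
    rw [AFF_p_apply]
    show z = 1 * z + ev (t 0) (t 1) 0
    rw [AFF_ev_zero]; ring
  | cons p L ih =>
    obtain ⟨i, b⟩ := p
    obtain ⟨u, hu⟩ := ih
    have hof : AFF_rho t j (FreeGroup.of i) = AFF_p (t i) (if i = j then 1 else 0) := by
      unfold AFF_rho; rw [FreeGroup.lift_apply_of]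
    cases b with
    | true =>
      refine ⟨t i * u, ?_⟩
      rw [AFF_mk_true, map_mul, hof, hu, AFF_p_mul]
      congr 1
      show _ = ev (t 0) (t 1) ((if i = j then Finsupp.single 0 1 else 0) + (fox L j).mapDomain (fun v => e i + v))
      rw [AFF_ev_add, AFF_ev_map, AFF_te]
      by_cases h : i = j
      · rw [if_pos h, if_pos h, AFF_ev_single]; simp [add_comm]
      · rw [if_neg h, if_neg h, AFF_ev_zero]; ring
    | false =>
      refine ⟨(t i)⁻¹ * u, ?_⟩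
      rw [AFF_mk_false, map_mul, map_inv, hof, hu, AFF_p_inv, AFF_p_mul]
      congr 1
      show _ = ev (t 0) (t 1) ((if i = j then Finsupp.single (-e i) (-1) else 0) + (fox L j).mapDomain (fun v => -e i + v))
      rw [AFF_ev_add, AFF_ev_map, AFF_ten]
      by_cases h : i = j
      · rw [if_pos h, if_pos h, AFF_ev_single, AFF_ten]; push_cast; ring
      · rw [if_neg h, if_neg h, AFF_ev_zero]; ring

/-- the subgroup of the affine maps with d-torsion slope -/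
def AFF_A (q d : ℕ) : Subgroup (Equiv.Perm (ZMod q)) where
  carrier := {π | ∃ (u : (ZMod q)ˣ) (c : ZMod q), u ^ d = 1 ∧ π = AFF_p u c}
  mul_mem' := by
    rintro _ _ ⟨u, c, hu, rfl⟩ ⟨v, c', hv, rfl⟩
    exact ⟨u * v, _, by rw [mul_pow, hu, hv, one_mul], AFF_p_mul u v c c'⟩
  one_mem' := ⟨1, 0, one_pow d, by ext z; rw [AFF_p_apply]; simp⟩
  inv_mem' := by
    rintro _ ⟨u, c, hu, rfl⟩
    exact ⟨u⁻¹, _, by rw [inv_pow, hu, inv_one], AFF_p_inv u c⟩

end

theorem AFF_card (q d : ℕ) (hq : q.Prime) (hd : 0 < d) : Nat.card (AFF_A q d) ≤ q * d := by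
  classical
  have : Fact q.Prime := ⟨hq⟩
  have : NeZero q := ⟨hq.ne_zero⟩
  have : NeZero d := ⟨hd.ne'⟩
  have hsurj : Function.Surjective (fun p : rootsOfUnity d (ZMod q) × ZMod q =>
      (⟨AFF_p (p.1 : (ZMod q)ˣ) p.2, ⟨p.1, p.2, by
        have := (mem_rootsOfUnity d (p.1 : (ZMod q)ˣ)).mp p.1.2
        exact this, rfl⟩⟩ : AFF_A q d)) := by
    rintro ⟨π, u, c, hu, rfl⟩
    exact ⟨(⟨u, (mem_rootsOfUnity d u).mpr hu⟩, c), rfl⟩
  have h1 := Nat.card_le_card_of_surjective _ hsurj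
  rw [Nat.card_prod, Nat.card_zmod] at h1
  have h2 : Nat.card (rootsOfUnity d (ZMod q)) ≤ d := card_rootsOfUnity (ZMod q) d
  calc Nat.card (AFF_A q d) ≤ Nat.card (rootsOfUnity d (ZMod q)) * q := h1
    _ ≤ d * q := Nat.mul_le_mul_right q h2
    _ = q * d := Nat.mul_comm d q

theorem AFF : AFF_stmt := by
  classical
  intro q d hq hd t ht L j hne
  have : Fact q.Prime := ⟨hq⟩
  have : NeZero q := ⟨hq.ne_zero⟩
  refine ⟨(AFF_rho t j).ker, MonoidHom.normal_ker _, ?_, ?_, ?_⟩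
  · intro h
    rw [MonoidHom.mem_ker] at h
    obtain ⟨u, hu⟩ := AFF_main t j L
    rw [hu] at h
    apply hne
    have h2 : AFF_p u (ev (t 0) (t 1) (fox L j)) 0 = (1 : Equiv.Perm (ZMod q)) 0 := by rw [h]
    rw [AFF_p_apply, mul_zero, zero_add, Equiv.Perm.one_apply] at h2
    exact h2
  · rw [Subgroup.index_ker]
    exact Nat.card_pos.ne'
  · rw [Subgroup.index_ker]
    have hle : (AFF_rho t j).range ≤ AFF_A q d := by
      rintro _ ⟨w, rfl⟩
      induction w using FreeGroup.induction_on with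
      | C1 => rw [map_one]; exact Subgroup.one_mem _
      | of i =>
        have hof : AFF_rho t j (FreeGroup.of i) = AFF_p (t i) (if i = j then 1 else 0) := by
          unfold AFF_rho; rw [FreeGroup.lift_apply_of]
        exact ⟨t i, _, ht i, hof⟩
      | inv_of i h => rw [map_inv]; exact Subgroup.inv_mem _ h
      | mul x y hx hy => rw [map_mul]; exact Subgroup.mul_mem _ hx hy
    have h1 : Nat.card (AFF_rho t j).range ≤ Nat.card (AFF_A q d) :=
      Nat.card_le_card_of_injective _ (Subgroup.inclusion_injective hle)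
    exact h1.trans (AFF_card q d hq hd)

end Pool.Agent.RG
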