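import Pool.Agent.helper93.RG.Spec

/-! # Row rg:ASY (helper33) -/

set_option autoImplicit false

namespace Pool.Agent.RG

open Finset Filter

theorem ASY_event (C c : ℝ) (x₀ : ℕ) (hC : 0 < C) (hc : 0 < c) :
    ∀ᶠ n : ℕ in atTop, 3 ≤ n ∧ x₀ ^ 2 ≤ n ∧ 4 * C * Real.log n ^ 6 ≤ n ∧ 160 / c ^ 2 < Real.log n ^ 2 := by
  have h1 : ∀ᶠ n : ℕ in atTop, 3 ≤ n := eventually_ge_atTop 3
  have h2 : ∀ᶠ n : ℕ in atTop, x₀ ^ 2 ≤ n := eventually_ge_atTop _
  have h3 : ∀ᶠ n : ℕ in atTop, 4 * C * Real.log n ^ 6 ≤ n := by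
    have h := (Real.isLittleO_pow_log_id_atTop (n := 6)).bound (show (0 : ℝ) < 1 / (4 * C) by positivity)
    have h' := tendsto_natCast_atTop_atTop (R := ℝ) |>.eventually h
    filter_upwards [h'] with n hn
    simp only [id_eq, Real.norm_eq_abs] at hn
    have h5 : |(n : ℝ)| = n := abs_of_nonneg (Nat.cast_nonneg n)
    rw [h5] at hn
    have h6 := le_abs_self (Real.log n ^ 6)
    have h7 : Real.log n ^ 6 ≤ 1 / (4 * C) * n := h6.trans hn
    calc 4 * C * Real.log n ^ 6 ≤ 4 * C * (1 / (4 * C) * n) := by gcongr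
      _ = n := by field_simp
  have h4 : ∀ᶠ n : ℕ in atTop, 160 / c ^ 2 < Real.log n ^ 2 := by
    have ht : Tendsto (fun n : ℕ => Real.log n ^ 2) atTop atTop :=
      (tendsto_pow_atTop (two_ne_zero)).comp (Real.tendsto_log_atTop.comp tendsto_natCast_atTop_atTop)
    exact ht.eventually_gt_atTop _
  filter_upwards [h1, h2, h3, h4] with n a b c d using ⟨a, b, c, d⟩

theorem ASY_natlog (d : ℕ) (hd : 0 < d) : (Nat.log 2 d : ℝ) ≤ Real.log d / Real.log 2 := by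
  have h := Nat.pow_log_le_self 2 hd.ne'
  have h1 : ((2 : ℝ) ^ Nat.log 2 d) ≤ d := by exact_mod_cast h
  have h2 := Real.log_le_log (by positivity) h1
  rw [Real.log_pow] at h2
  rwa [le_div_iff₀ (Real.log_pos (by norm_num))]

theorem ASY (hPRM : PRM_stmt) (hGDD : GDD_stmt) (hTOT : TOT_stmt) : ASY_stmt := by
  classical
  obtain ⟨C, hC, hP⟩ := hPRM
  obtain ⟨c, x₀, hc, hG⟩ := hGDD
  obtain ⟨n₀, hn₀⟩ := eventually_atTop.mp (ASY_event C c x₀ hC hc)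
  refine ⟨16 * C, n₀, by positivity, fun n hn => ?_⟩
  obtain ⟨hn3, hnx, hnl, hnc⟩ := hn₀ n hn
  obtain ⟨U, hU1, hUs, hUC⟩ := hP n hn3
  set l : ℝ := Real.log n with hl
  have hn3' : (3 : ℝ) ≤ n := by exact_mod_cast hn3
  have hn0 : (0 : ℝ) < n := by linarith
  have hl1 : 1 ≤ l := by
    rw [hl, Real.le_log_iff_exp_le hn0]
    have := Real.exp_one_lt_d9
    linarith
  have hl0 : 0 < l := by linarith
  have hU1' : (1 : ℝ) ≤ U := by exact_mod_cast hU1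
  have hU0 : (0 : ℝ) < U := by linarith
  set y : ℝ := Real.sqrt (n * U) * l ^ 3 with hy
  have hnU : (0 : ℝ) < n * U := by positivity
  have hy2 : y ^ 2 = n * U * l ^ 6 := by
    rw [hy, mul_pow, Real.sq_sqrt hnU.le]; ring
  have hy0 : 0 < y := by rw [hy]; positivity
  have hnUge : (n : ℝ) ≤ n * U := by nlinarith
  have hl6 : 1 ≤ l ^ 6 := one_le_pow₀ hl1
  have hy2n : (n : ℝ) ≤ y ^ 2 := by
    rw [hy2]; nlinarith
  have hy1 : 1 ≤ y := by
    by_contra h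
    push Not at h
    nlinarith
  set x : ℕ := ⌈y⌉₊ with hx
  have hyx : y ≤ x := Nat.le_ceil y
  have hx2y : (x : ℝ) ≤ 2 * y := by
    have := Nat.ceil_lt_add_one hy0.le
    rw [← hx] at this
    linarith
  have hx1 : (1 : ℝ) ≤ x := hy1.trans hyx
  have hx0 : (0 : ℝ) < x := by linarith
  have hx2n : (n : ℝ) ≤ (x : ℝ) ^ 2 := hy2n.trans (by gcongr)
  have hxx₀ : x₀ ≤ x := by
    by_contra h
    push Not at h
    have h1 : (x : ℝ) < x₀ := by exact_mod_cast h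
    have h2 : ((x₀ : ℝ)) ^ 2 ≤ n := by exact_mod_cast hnx
    -- x^2 < x0^2 ≤ n ≤ x^2
    nlinarith
  obtain ⟨𝒟, hD, hDc⟩ := hG x hxx₀
  -- log x ≤ 2 l
  have hpow : ((n : ℝ) * l) ^ ((1 : ℝ) / 3) ≤ (n : ℝ) ^ ((1 : ℝ) / 3) * l := by
    rw [Real.mul_rpow hn0.le hl0.le]
    gcongr
    calc l ^ ((1 : ℝ) / 3) ≤ l ^ (1 : ℝ) := Real.rpow_le_rpow_of_exponent_le hl1 (by norm_num)
      _ = l := Real.rpow_one l
  have hn13 : (n : ℝ) ^ ((1 : ℝ) / 3) ≤ n := by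
    calc (n : ℝ) ^ ((1 : ℝ) / 3) ≤ (n : ℝ) ^ (1 : ℝ) :=
          Real.rpow_le_rpow_of_exponent_le (by linarith) (by norm_num)
      _ = n := Real.rpow_one _
  have hUn : (U : ℝ) ≤ C * n * l := by
    calc (U : ℝ) ≤ C * ((n : ℝ) * l) ^ ((1 : ℝ) / 3) := hUC
      _ ≤ C * ((n : ℝ) ^ ((1 : ℝ) / 3) * l) := by gcongr
      _ ≤ C * (n * l) := by gcongr
      _ = C * n * l := by ring
  have hln : l ≤ n := by
    rw [hl]
    have := Real.log_le_sub_one_of_pos hn0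
    linarith
  have hxn4 : (x : ℝ) ^ 2 ≤ (n : ℝ) ^ 4 := by
    calc (x : ℝ) ^ 2 ≤ (2 * y) ^ 2 := by gcongr
      _ = 4 * (n * U * l ^ 6) := by rw [mul_pow, hy2]; ring
      _ ≤ 4 * (n * (C * n * l) * l ^ 6) := by gcongr
      _ = (4 * C * l ^ 6) * (n ^ 2 * l) := by ring
      _ ≤ n * (n ^ 2 * n) := by gcongr
      _ = (n : ℝ) ^ 4 := by ring
  have hxn2 : (x : ℝ) ≤ (n : ℝ) ^ 2 := by
    have h1 : (x : ℝ) ^ 2 ≤ ((n : ℝ) ^ 2) ^ 2 := by rw [← pow_mul]; exact hxn4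
    exact (pow_le_pow_iff_left₀ hx0.le (by positivity) two_ne_zero).mp h1
  have hlx : Real.log x ≤ 2 * l := by
    have h1 := Real.log_le_log hx0 hxn2
    rw [Real.log_pow] at h1
    push_cast at h1
    exact h1
  have hlog2 : (0.69 : ℝ) < Real.log 2 := by
    have := Real.log_two_gt_d9
    linarith
  -- log x positive
  have hx2 : (1 : ℝ) < x := by
    by_contra h
    push Not at h
    nlinarith
  have hlx0 : 0 < Real.log x := Real.log_pos hx2
  refine ⟨U, 2 * x, 𝒟, hUs, ?_, ?_, ?_⟩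
  · intro d hd
    obtain ⟨h1, h2, _, q₁, q₂, h3, h4, h5, h6, h7, h8, h9, h10, h11⟩ := hD d hd
    refine ⟨h1, h2, q₁, q₂, h3, h4, h5, h6, h7, h9, h11, ?_⟩
    have hxn' : n ≤ x ^ 2 := by exact_mod_cast hx2n
    calc n ≤ x ^ 2 := hxn'
      _ = x * x := by ring
      _ < q₁ * q₂ := Nat.mul_lt_mul'' h8 h10
  · have hphi : ∀ d ∈ 𝒟, c * x / (10 * l ^ 2) ≤ (Nat.totient d : ℝ) := by
      intro d hd
      obtain ⟨h1, h2, h3, _⟩ := hD d hd
      have h4 := hTOT d h1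
      have h5 : (d : ℝ) ≤ (Nat.totient d : ℝ) * ((Nat.log 2 d : ℝ) + 1) := by exact_mod_cast h4
      have hd0 : (0 : ℝ) < d := by exact_mod_cast h1
      have h6 : (Nat.log 2 d : ℝ) + 1 ≤ 5 * l := by
        have h7 := ASY_natlog d h1
        have h8 : Real.log d ≤ Real.log 2 + 2 * l := by
          have h9 : (d : ℝ) ≤ 2 * x := by exact_mod_cast h2
          have h10 := Real.log_le_log hd0 h9
          rw [Real.log_mul (by norm_num) hx0.ne'] at h10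
          linarith
        have h11 : Real.log d / Real.log 2 ≤ 1 + 3 * l := by
          rw [div_le_iff₀ (by linarith)]
          nlinarith
        linarith
      have h12 : (d : ℝ) ≤ (Nat.totient d : ℝ) * (5 * l) := by
        refine h5.trans ?_
        gcongr
      have h13 : c * x / (2 * l) ≤ d := by
        refine le_trans ?_ h3
        gcongr
      rw [div_le_iff₀ (by positivity)]
      rw [div_le_iff₀ (by positivity)] at h13
      nlinarith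
    have hcard : c * x / (4 * l ^ 2) ≤ (𝒟.card : ℝ) := by
      refine le_trans ?_ hDc
      have : Real.log x ^ 2 ≤ 4 * l ^ 2 := by
        calc Real.log x ^ 2 ≤ (2 * l) ^ 2 := by gcongr
          _ = 4 * l ^ 2 := by ring
      gcongr
    have hsum : (c * x / (4 * l ^ 2)) * (c * x / (10 * l ^ 2)) ≤ ((∑ d ∈ 𝒟, Nat.totient d : ℕ) : ℝ) := by
      push_cast
      calc (c * x / (4 * l ^ 2)) * (c * x / (10 * l ^ 2)) ≤ (𝒟.card : ℝ) * (c * x / (10 * l ^ 2)) := by gcongr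
        _ = ∑ _d ∈ 𝒟, (c * x / (10 * l ^ 2)) := by rw [Finset.sum_const, nsmul_eq_mul]
        _ ≤ ∑ d ∈ 𝒟, (Nat.totient d : ℝ) := Finset.sum_le_sum hphi
    have hmain : (4 * (n : ℝ) * U) < (c * x / (4 * l ^ 2)) * (c * x / (10 * l ^ 2)) := by
      have e1 : (c * x / (4 * l ^ 2)) * (c * x / (10 * l ^ 2)) = c ^ 2 * (x : ℝ) ^ 2 / (40 * l ^ 4) := by
        field_simp
        ring
      rw [e1, lt_div_iff₀ (by positivity)]
      have e2 : 160 < c ^ 2 * l ^ 2 := by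
        rw [div_lt_iff₀ (by positivity)] at hnc
        linarith
      have e3 : (n : ℝ) * U * l ^ 6 ≤ (x : ℝ) ^ 2 := by
        rw [← hy2]; gcongr
      calc 4 * (n : ℝ) * U * (40 * l ^ 4) = 160 * ((n : ℝ) * U * l ^ 4) := by ring
        _ < (c ^ 2 * l ^ 2) * ((n : ℝ) * U * l ^ 4) := by gcongr
        _ = c ^ 2 * ((n : ℝ) * U * l ^ 6) := by ring
        _ ≤ c ^ 2 * (x : ℝ) ^ 2 := by gcongr
    have := hmain.trans_le hsum
    exact_mod_cast this
  · push_cast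
    have e1 : (n : ℝ) * (n : ℝ) ^ ((1 : ℝ) / 3) = (n : ℝ) ^ ((4 : ℝ) / 3) := by
      rw [show ((4 : ℝ) / 3) = 1 + 1 / 3 by norm_num, Real.rpow_add hn0, Real.rpow_one]
    calc 2 * (x : ℝ) * (2 * x) = 4 * (x : ℝ) ^ 2 := by ring
      _ ≤ 4 * (2 * y) ^ 2 := by gcongr
      _ = 16 * (n * U * l ^ 6) := by rw [mul_pow, hy2]; ring
      _ ≤ 16 * (n * (C * ((n : ℝ) ^ ((1 : ℝ) / 3) * l)) * l ^ 6) := by
          have : (U : ℝ) ≤ C * ((n : ℝ) ^ ((1 : ℝ) / 3) * l) := hUC.trans (by gcongr)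
          gcongr
      _ = 16 * C * (n * (n : ℝ) ^ ((1 : ℝ) / 3)) * l ^ 7 := by ring
      _ = 16 * C * (n : ℝ) ^ ((4 : ℝ) / 3) * l ^ 7 := by rw [e1]

end Pool.Agent.RG
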