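import Pool.Agent.helper93.RG.Spec

/-! # Row rg:MAG (helper33) -/

set_option autoImplicit false

namespace Pool.Agent.RG

open Finset

/-- section of the abelianization -/
noncomputable def MAG_s (v : ℤ × ℤ) : FreeGroup (Fin 2) := FreeGroup.of 0 ^ v.1 * FreeGroup.of 1 ^ v.2

noncomputable def MAG_g (v : ℤ × ℤ) (j : Fin 2) : FreeGroup (Fin 2) :=
  MAG_s v * FreeGroup.of j * (MAG_s (v + e j))⁻¹

theorem MAG_g_mem (v : ℤ × ℤ) (j : Fin 2) : MAG_g v j ∈ commutator (FreeGroup (Fin 2)) := by
  rw [← Abelianization.ker_of, MonoidHom.mem_ker]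
  unfold MAG_g MAG_s
  rw [map_mul, map_inv, mul_inv_eq_one, map_mul, map_mul, map_mul, map_zpow, map_zpow, map_zpow, map_zpow]
  fin_cases j
  · simp only [e, Fin.zero_eta, if_true, Prod.fst_add, Prod.snd_add, add_zero]
    rw [zpow_add, zpow_one, mul_right_comm]
  · have h10 : ((1 : Fin 2) = 0) = False := by simp
    simp only [e, Fin.mk_one, h10, if_false, Prod.fst_add, Prod.snd_add, add_zero]
    rw [zpow_add, zpow_one, mul_assoc]

def MAG_deg : List (Fin 2 × Bool) → ℤ × ℤ
  | [] => 0
  | (i, true) :: L => e i + MAG_deg L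
  | (i, false) :: L => -e i + MAG_deg L

noncomputable def MAG_c (v : ℤ × ℤ) (j : Fin 2) : Additive (Abelianization (commutator (FreeGroup (Fin 2)))) :=
  Additive.ofMul (Abelianization.of ⟨MAG_g v j, MAG_g_mem v j⟩)

theorem MAG_mk_true (i : Fin 2) (L : List (Fin 2 × Bool)) :
    FreeGroup.mk ((i, true) :: L) = FreeGroup.of i * FreeGroup.mk L := by
  unfold FreeGroup.of
  rw [FreeGroup.mul_mk]
  rfl

theorem MAG_mk_false (i : Fin 2) (L : List (Fin 2 × Bool)) :
    FreeGroup.mk ((i, false) :: L) = (FreeGroup.of i)⁻¹ * FreeGroup.mk L := by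
  unfold FreeGroup.of
  rw [FreeGroup.inv_mk, FreeGroup.mul_mk]
  rfl

theorem MAG_claim (L : List (Fin 2 × Bool)) : ∀ v : ℤ × ℤ,
    ∃ h : MAG_s v * FreeGroup.mk L * (MAG_s (v + MAG_deg L))⁻¹ ∈ commutator (FreeGroup (Fin 2)),
      Additive.ofMul (Abelianization.of (⟨_, h⟩ : commutator (FreeGroup (Fin 2)))) =
        ∑ j : Fin 2, (fox L j).sum fun w c => c • MAG_c (v + w) j := by
  induction L with
  | nil =>
    intro v
    have h0 : MAG_s v * FreeGroup.mk [] * (MAG_s (v + MAG_deg []))⁻¹ = 1 := by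
      show MAG_s v * FreeGroup.mk [] * (MAG_s (v + 0))⁻¹ = 1
      rw [add_zero, ← FreeGroup.one_eq_mk, mul_one, mul_inv_cancel]
    refine ⟨by rw [h0]; exact Subgroup.one_mem _, ?_⟩
    have h1 : (⟨MAG_s v * FreeGroup.mk [] * (MAG_s (v + MAG_deg []))⁻¹, by rw [h0]; exact Subgroup.one_mem _⟩ :
        commutator (FreeGroup (Fin 2))) = 1 := Subtype.ext h0
    rw [h1]
    simp [fox]
  | cons p L ih =>
    obtain ⟨i, b⟩ := p
    intro v
    cases b with
    | true =>
      obtain ⟨h, hh⟩ := ih (v + e i)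
      have h0 : MAG_s v * FreeGroup.mk ((i, true) :: L) * (MAG_s (v + MAG_deg ((i, true) :: L)))⁻¹ =
          MAG_g v i * (MAG_s (v + e i) * FreeGroup.mk L * (MAG_s (v + e i + MAG_deg L))⁻¹) := by
        rw [MAG_mk_true]
        show _ * _ * (MAG_s (v + (e i + MAG_deg L)))⁻¹ = _
        unfold MAG_g
        rw [← add_assoc]
        group
      have hm : MAG_s v * FreeGroup.mk ((i, true) :: L) * (MAG_s (v + MAG_deg ((i, true) :: L)))⁻¹ ∈
          commutator (FreeGroup (Fin 2)) := by
        rw [h0]; exact Subgroup.mul_mem _ (MAG_g_mem v i) h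
      refine ⟨hm, ?_⟩
      have h1 : (⟨_, hm⟩ : commutator (FreeGroup (Fin 2))) = ⟨MAG_g v i, MAG_g_mem v i⟩ * ⟨_, h⟩ := Subtype.ext h0
      rw [h1, map_mul, ofMul_mul, hh]
      have h2 : ∀ j : Fin 2, (fox ((i, true) :: L) j).sum (fun w c => c • MAG_c (v + w) j) =
          (if i = j then MAG_c v j else 0) + (fox L j).sum fun w c => c • MAG_c (v + e i + w) j := by
        intro j
        show ((if i = j then Finsupp.single 0 1 else 0) + (fox L j).mapDomain (fun v => e i + v)).sum _ = _
        rw [Finsupp.sum_add_index' (by intro; rw [zero_smul]) (by intro a b c; rw [add_smul]),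
          Finsupp.sum_mapDomain_index (by intro; rw [zero_smul]) (by intro a b c; rw [add_smul])]
        congr 1
        · by_cases hij : i = j
          · rw [if_pos hij, if_pos hij, Finsupp.sum_single_index (by rw [zero_smul]), one_smul, add_zero]
          · rw [if_neg hij, if_neg hij, Finsupp.sum_zero_index]
        · simp only [← add_assoc]
      rw [Finset.sum_congr rfl (fun j _ => h2 j), Finset.sum_add_distrib, Finset.sum_ite_eq, if_pos (Finset.mem_univ i)]
      rfl
    | false =>
      obtain ⟨h, hh⟩ := ih (v + -e i)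
      have h0 : MAG_s v * FreeGroup.mk ((i, false) :: L) * (MAG_s (v + MAG_deg ((i, false) :: L)))⁻¹ =
          (MAG_g (v + -e i) i)⁻¹ * (MAG_s (v + -e i) * FreeGroup.mk L * (MAG_s (v + -e i + MAG_deg L))⁻¹) := by
        rw [MAG_mk_false]
        show _ * _ * (MAG_s (v + (-e i + MAG_deg L)))⁻¹ = _
        unfold MAG_g
        rw [← add_assoc, show v + -e i + e i = v by abel]
        group
      have hm : MAG_s v * FreeGroup.mk ((i, false) :: L) * (MAG_s (v + MAG_deg ((i, false) :: L)))⁻¹ ∈
          commutator (FreeGroup (Fin 2)) := by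
        rw [h0]; exact Subgroup.mul_mem _ (Subgroup.inv_mem _ (MAG_g_mem _ i)) h
      refine ⟨hm, ?_⟩
      have h1 : (⟨_, hm⟩ : commutator (FreeGroup (Fin 2))) =
          (⟨MAG_g (v + -e i) i, MAG_g_mem _ i⟩)⁻¹ * ⟨_, h⟩ := Subtype.ext h0
      rw [h1, map_mul, map_inv, ofMul_mul, ofMul_inv, hh]
      have h2 : ∀ j : Fin 2, (fox ((i, false) :: L) j).sum (fun w c => c • MAG_c (v + w) j) =
          (if i = j then -MAG_c (v + -e i) j else 0) + (fox L j).sum fun w c => c • MAG_c (v + -e i + w) j := by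
        intro j
        show ((if i = j then Finsupp.single (-e i) (-1) else 0) + (fox L j).mapDomain (fun v => -e i + v)).sum _ = _
        rw [Finsupp.sum_add_index' (by intro; rw [zero_smul]) (by intro a b c; rw [add_smul]),
          Finsupp.sum_mapDomain_index (by intro; rw [zero_smul]) (by intro a b c; rw [add_smul])]
        congr 1
        · by_cases hij : i = j
          · rw [if_pos hij, if_pos hij, Finsupp.sum_single_index (by rw [zero_smul]), neg_smul, one_smul]
          · rw [if_neg hij, if_neg hij, Finsupp.sum_zero_index]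
        · simp only [← add_assoc]
      rw [Finset.sum_congr rfl (fun j _ => h2 j), Finset.sum_add_distrib, Finset.sum_ite_eq, if_pos (Finset.mem_univ i)]
      rfl

theorem MAG_deg_eq (L : List (Fin 2 × Bool)) :
    FreeGroup.lift (fun i : Fin 2 => Multiplicative.ofAdd (e i)) (FreeGroup.mk L) = Multiplicative.ofAdd (MAG_deg L) := by
  induction L with
  | nil => rw [← FreeGroup.one_eq_mk, map_one]; rfl
  | cons p L ih =>
    obtain ⟨i, b⟩ := p
    cases b with
    | true => rw [MAG_mk_true, map_mul, ih, FreeGroup.lift_apply_of]; rfl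
    | false => rw [MAG_mk_false, map_mul, map_inv, ih, FreeGroup.lift_apply_of]; rfl

theorem MAG : MAG_stmt := by
  intro L hL hfox
  have hdeg : MAG_deg L = 0 := by
    have h1 := Abelianization.commutator_subset_ker (FreeGroup.lift (fun i : Fin 2 => Multiplicative.ofAdd (e i))) hL
    rw [MonoidHom.mem_ker, MAG_deg_eq] at h1
    exact h1
  obtain ⟨h, hh⟩ := MAG_claim L 0
  have h2 : (∑ j : Fin 2, (fox L j).sum fun w c => c • MAG_c (0 + w) j) = 0 :=
    Finset.sum_eq_zero fun j _ => by rw [hfox j, Finsupp.sum_zero_index]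
  rw [h2] at hh
  have h3 : Abelianization.of (⟨_, h⟩ : commutator (FreeGroup (Fin 2))) = 1 := hh
  have h4 : (⟨_, h⟩ : commutator (FreeGroup (Fin 2))) ∈ commutator (commutator (FreeGroup (Fin 2))) :=
    (Abelianization.ker_of (commutator (FreeGroup (Fin 2)))).le (MonoidHom.mem_ker.mpr h3)
  have h5 : MAG_s 0 * FreeGroup.mk L * (MAG_s (0 + MAG_deg L))⁻¹ = FreeGroup.mk L := by
    rw [hdeg, add_zero]
    have : MAG_s 0 = 1 := by unfold MAG_s; simp
    rw [this]; group
  have h6 := Subgroup.mem_map_of_mem (commutator (FreeGroup (Fin 2))).subtype h4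
  rw [Subgroup.map_subtype_commutator] at h6
  rw [derivedSeries_succ, derivedSeries_one]
  have h7 : (commutator (FreeGroup (Fin 2))).subtype ⟨_, h⟩ = FreeGroup.mk L := h5
  rw [h7] at h6
  exact h6

end Pool.Agent.RG
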