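import Pool.Agent.helper93.RG.Spec

/-! # Row rg:SUP (helper33) -/

set_option autoImplicit false

namespace Pool.Agent.RG

open Finset

theorem SUP_l1_add (f g : (ℤ × ℤ) →₀ ℤ) :
    ∑ v ∈ (f + g).support, |(f + g) v| ≤ ∑ v ∈ f.support, |f v| + ∑ v ∈ g.support, |g v| := by
  classical
  have h1 : ∑ v ∈ (f + g).support, |(f + g) v| ≤ ∑ v ∈ f.support ∪ g.support, |(f + g) v| :=
    Finset.sum_le_sum_of_subset_of_nonneg Finsupp.support_add (fun _ _ _ => abs_nonneg _)
  have h2 : ∑ v ∈ f.support ∪ g.support, |(f + g) v| ≤ ∑ v ∈ f.support ∪ g.support, (|f v| + |g v|) :=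
    Finset.sum_le_sum fun v _ => by rw [Finsupp.add_apply]; exact abs_add_le _ _
  have h3 : ∑ v ∈ f.support ∪ g.support, |f v| = ∑ v ∈ f.support, |f v| := by
    symm
    refine Finset.sum_subset Finset.subset_union_left fun v _ hv => ?_
    rw [Finsupp.notMem_support_iff.mp hv, abs_zero]
  have h4 : ∑ v ∈ f.support ∪ g.support, |g v| = ∑ v ∈ g.support, |g v| := by
    symm
    refine Finset.sum_subset Finset.subset_union_right fun v _ hv => ?_
    rw [Finsupp.notMem_support_iff.mp hv, abs_zero]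
  rw [Finset.sum_add_distrib, h3, h4] at h2
  exact h1.trans h2

theorem SUP_l1_map (u : ℤ × ℤ) (f : (ℤ × ℤ) →₀ ℤ) :
    ∑ v ∈ (f.mapDomain (fun v => u + v)).support, |f.mapDomain (fun v => u + v) v| = ∑ v ∈ f.support, |f v| := by
  classical
  have hinj : Function.Injective (fun v : ℤ × ℤ => u + v) := add_right_injective u
  rw [Finsupp.mapDomain_support_of_injective hinj, Finset.sum_image fun a _ b _ h => hinj h]
  exact Finset.sum_congr rfl fun v _ => by rw [Finsupp.mapDomain_apply hinj]

theorem SUP_abs_e (i : Fin 2) : |(e i).1| ≤ 1 ∧ |(e i).2| ≤ 1 ∧ |(-e i).1| ≤ 1 ∧ |(-e i).2| ≤ 1 := by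
  fin_cases i <;> simp [e]

theorem SUP_supp_map (u : ℤ × ℤ) (hu : |u.1| ≤ 1 ∧ |u.2| ≤ 1) (f : (ℤ × ℤ) →₀ ℤ) (n : ℤ)
    (h : ∀ v ∈ f.support, |v.1| ≤ n ∧ |v.2| ≤ n) :
    ∀ v ∈ (f.mapDomain (fun v => u + v)).support, |v.1| ≤ n + 1 ∧ |v.2| ≤ n + 1 := by
  classical
  intro v hv
  have hinj : Function.Injective (fun v : ℤ × ℤ => u + v) := add_right_injective u
  rw [Finsupp.mapDomain_support_of_injective hinj, Finset.mem_image] at hv
  obtain ⟨w, hw, rfl⟩ := hv
  have h1 := h w hw
  constructor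
  · show |u.1 + w.1| ≤ n + 1
    have := abs_add_le u.1 w.1
    linarith [h1.1, hu.1]
  · show |u.2 + w.2| ≤ n + 1
    have := abs_add_le u.2 w.2
    linarith [h1.2, hu.2]

theorem SUP : SUP_stmt := by
  classical
  intro L j
  induction L with
  | nil => simp [fox]
  | cons p L ih =>
    obtain ⟨i, b⟩ := p
    have key : ∀ (u : ℤ × ℤ) (g : (ℤ × ℤ) →₀ ℤ), |u.1| ≤ 1 ∧ |u.2| ≤ 1 →
        (∀ v ∈ g.support, |v.1| ≤ 1 ∧ |v.2| ≤ 1) → ∑ v ∈ g.support, |g v| ≤ 1 →
        (∀ v ∈ (g + (fox L j).mapDomain (fun v => u + v)).support,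
            |v.1| ≤ ((((i, b) :: L).length : ℕ) : ℤ) ∧ |v.2| ≤ ((((i, b) :: L).length : ℕ) : ℤ)) ∧
          ∑ v ∈ (g + (fox L j).mapDomain (fun v => u + v)).support, |(g + (fox L j).mapDomain (fun v => u + v)) v| ≤
            ((((i, b) :: L).length : ℕ) : ℤ) := by
      intro u g hu hg hg1
      have hlen : ((((i, b) :: L).length : ℕ) : ℤ) = (L.length : ℤ) + 1 := by simp
      rw [hlen]
      constructor
      · intro v hv
        rcases Finset.mem_union.mp (Finsupp.support_add hv) with h | h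
        · have := hg v h
          have h0 : (0 : ℤ) ≤ (L.length : ℤ) := Int.natCast_nonneg _
          constructor <;> linarith [this.1, this.2]
        · exact SUP_supp_map u hu _ _ ih.1 v h
      · refine (SUP_l1_add _ _).trans ?_
        rw [SUP_l1_map]
        linarith [ih.2]
    cases b with
    | true =>
      refine key (e i) (if i = j then Finsupp.single 0 1 else 0) ⟨(SUP_abs_e i).1, (SUP_abs_e i).2.1⟩ ?_ ?_
      · intro v hv
        by_cases h : i = j
        · rw [if_pos h] at hv
          have := Finset.mem_singleton.mp (Finsupp.support_single_subset hv)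
          rw [this]; simp
        · rw [if_neg h] at hv; simp at hv
      · by_cases h : i = j
        · rw [if_pos h, Finsupp.support_single_ne_zero _ one_ne_zero, Finset.sum_singleton, Finsupp.single_eq_same]; simp
        · rw [if_neg h]; simp
    | false =>
      refine key (-e i) (if i = j then Finsupp.single (-e i) (-1) else 0) ⟨(SUP_abs_e i).2.2.1, (SUP_abs_e i).2.2.2⟩ ?_ ?_
      · intro v hv
        by_cases h : i = j
        · rw [if_pos h] at hv
          have := Finset.mem_singleton.mp (Finsupp.support_single_subset hv)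
          rw [this]; exact ⟨(SUP_abs_e i).2.2.1, (SUP_abs_e i).2.2.2⟩
        · rw [if_neg h] at hv; simp at hv
      · by_cases h : i = j
        · rw [if_pos h, Finsupp.support_single_ne_zero _ (by norm_num), Finset.sum_singleton, Finsupp.single_eq_same]; simp
        · rw [if_neg h]; simp

end Pool.Agent.RG
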